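import Pool.Agent.N856.JA.KLA1

/-!
# QK-LA2: the number of the tuples that can lie in the kernel
-/

set_option autoImplicit false
set_option linter.unusedVariables false
set_option linter.unusedSectionVars false

open scoped Classical

namespace Pool.Agent.N856.JA.QK.LA2

open Finset Pool.Agent.N856.JA.QK Pool.Agent.N856.JA.QK.LA0 Pool.Agent.N856.JA.QK.LA1

section generic

theorem eq_one : ∀ x : ZMod 2, x ≠ 0 → x = 1 := by decide

theorem ch_one : ch 1 = -1 := by decide

/-- the sum of the signs of an additive function -/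
theorem sum_ch_add {V : Type} [AddCommGroup V] [Fintype V] (f : V → ZMod 2)
    (hf : ∀ v w, f (v + w) = f v + f w) :
    ∑ v, ch (f v) = if ∀ v, f v = 0 then (Fintype.card V : ℤ) else 0 := by
  by_cases h : ∀ v, f v = 0
  · rw [if_pos h, Finset.sum_congr rfl fun v _ => by rw [h v, ch_zero]]
    simp
  · rw [if_neg h]
    push Not at h
    obtain ⟨w, hw⟩ := h
    have h1 := Equiv.sum_comp (Equiv.addRight w) fun v => ch (f v)
    have h2 : ∀ v, ch (f ((Equiv.addRight w) v)) = -ch (f v) := by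
      intro v
      rw [Equiv.coe_addRight, hf, ch_add, eq_one _ hw, ch_one]
      ring
    rw [Finset.sum_congr rfl fun v _ => h2 v, Finset.sum_neg_distrib] at h1
    linarith

/-- translations -/
theorem card_tr {V : Type} [AddCommGroup V] [Fintype V] {m : ℕ} (z : (Fin m → V) → V)
    (j0 : Fin m) (hz : ∀ x v, z (x + Pi.single j0 v) = z x + v) (K : Finset V) :
    (univ.filter fun x => z x ∈ K).card * Fintype.card V = Fintype.card V ^ m * K.card := by
  have h1 : ∀ v : V, (univ.filter fun x => z x ∈ K).card =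
      ∑ x : Fin m → V, if z x + v ∈ K then 1 else 0 := by
    intro v
    rw [Finset.card_filter, ← Equiv.sum_comp (Equiv.addRight (Pi.single j0 v : Fin m → V))]
    refine Finset.sum_congr rfl fun x _ => ?_
    rw [Equiv.coe_addRight, hz]
  have h2 : (univ.filter fun x => z x ∈ K).card * Fintype.card V =
      ∑ v : V, ∑ x : Fin m → V, if z x + v ∈ K then 1 else 0 := by
    rw [← Finset.sum_congr rfl fun v _ => h1 v, Finset.sum_const, Finset.card_univ,
      smul_eq_mul, mul_comm]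
  rw [h2, Finset.sum_comm]
  have h3 : ∀ x : Fin m → V, ∑ v : V, (if z x + v ∈ K then 1 else 0 : ℕ) = K.card := by
    intro x
    have h4 : ∑ v : V, (if z x + v ∈ K then 1 else 0 : ℕ) = ∑ v : V, (if v ∈ K then 1 else 0 : ℕ) :=
      Equiv.sum_comp (Equiv.addLeft (z x)) (fun v => (if v ∈ K then 1 else 0 : ℕ))
    refine h4.trans ?_
    rw [← Finset.card_filter]
    congr 1
    ext v
    simp
  rw [Finset.sum_congr rfl fun x _ => h3 x, Finset.sum_const, Finset.card_univ, smul_eq_mul]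
  congr 1
  rw [Fintype.card_fun, Fintype.card_fin]

variable {V : Type} [AddCommGroup V] [Module (ZMod 2) V] [Fintype V]

/-- the exponent -/
noncomputable def EE (b : V →ₗ[ZMod 2] V →ₗ[ZMod 2] ZMod 2) {m : ℕ}
    (h : prs (Fin m) → ZMod 2) (x : Fin m → V) : ZMod 2 :=
  ∑ e : prs (Fin m), h e * b (x e.1.1) (x e.1.2)

theorem EE_eq (b : V →ₗ[ZMod 2] V →ₗ[ZMod 2] ZMod 2) {m : ℕ}
    (h : prs (Fin m) → ZMod 2) (x : Fin m → V) :
    EE b h x = ∑ i, ∑ j, aa h (i, j) * b (x i) (x j) := by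
  unfold EE
  rw [sum_aa h fun e => b (x e.1) (x e.2), sum_pairs]
  have h1 : ∑ k, aa h (k, k) * b (x k) (x k) = 0 :=
    Finset.sum_eq_zero fun k _ => by rw [aa_neg h (e := (k, k)) (lt_irrefl _), zero_mul]
  rw [h1, add_zero]
  refine Finset.sum_congr rfl fun e he => ?_
  have h2 : e.1 < e.2 := mem_prs.1 he
  rw [aa_neg h (e := (e.2, e.1)) (not_lt.2 h2.le), zero_mul, add_zero]

theorem b_symm (b : V →ₗ[ZMod 2] V →ₗ[ZMod 2] ZMod 2) (hb : ∀ v, b v v = 0) (v w : V) :
    b v w = b w v := by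
  have h1 := hb (v + w)
  simp only [map_add, LinearMap.add_apply, hb, add_zero, zero_add] at h1
  exact (add_eq0.1 h1).symm

theorem EE_add (b : V →ₗ[ZMod 2] V →ₗ[ZMod 2] ZMod 2) (hb : ∀ v, b v v = 0) {m : ℕ}
    (h : prs (Fin m) → ZMod 2) (x : Fin m → V) (i0 : Fin m) (v : V) :
    EE b h (x + Pi.single i0 v) = EE b h x + b v (∑ j, gg h i0 j • x j) := by
  rw [EE_eq, EE_eq]
  have h1 : ∀ i j, aa h (i, j) * b ((x + Pi.single i0 v : Fin m → V) i)
      ((x + Pi.single i0 v : Fin m → V) j) =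
      aa h (i, j) * b (x i) (x j) + aa h (i, j) * b (x i) ((Pi.single i0 v : Fin m → V) j) +
        (aa h (i, j) * b ((Pi.single i0 v : Fin m → V) i) (x j) +
          aa h (i, j) * b ((Pi.single i0 v : Fin m → V) i) ((Pi.single i0 v : Fin m → V) j)) := by
    intro i j
    simp only [Pi.add_apply, map_add, LinearMap.add_apply]
    ring
  simp only [h1, Finset.sum_add_distrib]
  have h2 : ∑ i, ∑ j, aa h (i, j) * b (x i) ((Pi.single i0 v : Fin m → V) j) =
      ∑ i, aa h (i, i0) * b v (x i) := by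
    refine Finset.sum_congr rfl fun i _ => ?_
    rw [Finset.sum_eq_single i0 (fun j _ hj => by rw [Pi.single_eq_of_ne hj, map_zero, mul_zero])
      (fun hh => absurd (Finset.mem_univ _) hh), Pi.single_eq_same, b_symm b hb]
  have h3 : ∑ i, ∑ j, aa h (i, j) * b ((Pi.single i0 v : Fin m → V) i) (x j) =
      ∑ j, aa h (i0, j) * b v (x j) := by
    rw [Finset.sum_eq_single i0 (fun i _ hi => Finset.sum_eq_zero fun j _ => by
      rw [Pi.single_eq_of_ne hi, map_zero, LinearMap.zero_apply, mul_zero])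
      (fun hh => absurd (Finset.mem_univ _) hh), Pi.single_eq_same]
  have h4 : ∑ i, ∑ j, aa h (i, j) *
      b ((Pi.single i0 v : Fin m → V) i) ((Pi.single i0 v : Fin m → V) j) = 0 := by
    refine Finset.sum_eq_zero fun i _ => Finset.sum_eq_zero fun j _ => ?_
    by_cases hi : i = i0
    · by_cases hj : j = i0
      · subst hi
        subst hj
        rw [aa_neg h (e := (j, j)) (lt_irrefl _), zero_mul]
      · rw [Pi.single_eq_of_ne hj, map_zero, mul_zero]
    · rw [Pi.single_eq_of_ne hi, map_zero, LinearMap.zero_apply, mul_zero]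
  rw [h2, h3, h4, add_zero, add_assoc]
  congr 1
  rw [map_sum, ← Finset.sum_add_distrib]
  refine Finset.sum_congr rfl fun j _ => ?_
  rw [map_smul, smul_eq_mul]
  unfold gg
  ring

/-- the radical -/
noncomputable def Rad (b : V →ₗ[ZMod 2] V →ₗ[ZMod 2] ZMod 2) : Finset V :=
  univ.filter fun v => ∀ w, b w v = 0

theorem sum_EE (b : V →ₗ[ZMod 2] V →ₗ[ZMod 2] ZMod 2) (hb : ∀ v, b v v = 0) {m : ℕ}
    (h : prs (Fin m) → ZMod 2) (hh : h ≠ 0) :
    |∑ x : Fin m → V, ch (EE b h x)| * (Fintype.card V : ℤ) ≤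
      (Fintype.card V : ℤ) ^ m * ((Rad b).card : ℤ) := by
  obtain ⟨e0, he0⟩ : ∃ e, h e ≠ 0 := by
    by_contra hcon
    push Not at hcon
    exact hh (funext hcon)
  obtain ⟨z, hzd⟩ : ∃ z : (Fin m → V) → V, z = fun x => ∑ j, gg h e0.1.1 j • x j := ⟨_, rfl⟩
  have hz : ∀ x v, z (x + Pi.single e0.1.2 v) = z x + v := by
    intro x v
    rw [hzd]
    simp only [Pi.add_apply, smul_add, Finset.sum_add_distrib]
    congr 1
    rw [Finset.sum_eq_single e0.1.2 (fun j _ hj => by rw [Pi.single_eq_of_ne hj, smul_zero])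
      (fun hh => absurd (Finset.mem_univ _) hh), Pi.single_eq_same, gg_pos, eq_one _ he0,
      one_smul]
  have h1 : (Fintype.card V : ℤ) * ∑ x : Fin m → V, ch (EE b h x) =
      (Fintype.card V : ℤ) * ∑ x ∈ univ.filter (fun x => z x ∈ Rad b), ch (EE b h x) := by
    have h2 : ∀ v : V, ∑ x : Fin m → V, ch (EE b h x) =
        ∑ x : Fin m → V, ch (EE b h x) * ch (b v (z x)) := by
      intro v
      rw [← Equiv.sum_comp (Equiv.addRight (Pi.single e0.1.1 v : Fin m → V))]
      refine Finset.sum_congr rfl fun x _ => ?_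
      rw [Equiv.coe_addRight, EE_add b hb, ch_add, hzd]
    have h3 : (Fintype.card V : ℤ) * ∑ x : Fin m → V, ch (EE b h x) =
        ∑ v : V, ∑ x : Fin m → V, ch (EE b h x) * ch (b v (z x)) := by
      rw [← Finset.sum_congr rfl fun v _ => h2 v, Finset.sum_const, Finset.card_univ,
        nsmul_eq_mul]
    rw [h3, Finset.sum_comm, Finset.sum_filter, Finset.mul_sum]
    refine Finset.sum_congr rfl fun x _ => ?_
    rw [← Finset.mul_sum, sum_ch_add (fun v => b v (z x)) (fun v w => by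
      rw [map_add, LinearMap.add_apply])]
    have h4 : z x ∈ Rad b ↔ ∀ v, b v (z x) = 0 := by
      unfold Rad
      rw [Finset.mem_filter]
      exact ⟨fun h => h.2, fun h => ⟨Finset.mem_univ _, h⟩⟩
    by_cases h5 : ∀ v, b v (z x) = 0
    · rw [if_pos h5, if_pos (h4.2 h5), mul_comm]
    · rw [if_neg h5, if_neg (fun h => h5 (h4.1 h)), mul_zero, mul_zero]
  have hV : (Fintype.card V : ℤ) ≠ 0 := by
    have : 0 < Fintype.card V := Fintype.card_pos_iff.2 ⟨0⟩
    exact_mod_cast this.ne'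
  have h2 := mul_left_cancel₀ hV h1
  rw [h2]
  have h3 : |∑ x ∈ univ.filter (fun x => z x ∈ Rad b), ch (EE b h x)| ≤
      ((univ.filter (fun x => z x ∈ Rad b)).card : ℤ) := by
    refine (Finset.abs_sum_le_sum_abs _ _).trans ?_
    rw [Finset.sum_congr rfl fun x _ => ch_abs _]
    simp
  have h4 := card_tr z e0.1.2 hz (Rad b)
  have h5 : ((univ.filter (fun x => z x ∈ Rad b)).card : ℤ) * (Fintype.card V : ℤ) =
      (Fintype.card V : ℤ) ^ m * ((Rad b).card : ℤ) := by exact_mod_cast h4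
  rw [← h5]
  exact mul_le_mul_of_nonneg_right h3 (Int.natCast_nonneg _)

/-- the number of the orthogonal tuples -/
theorem card_orth (b : V →ₗ[ZMod 2] V →ₗ[ZMod 2] ZMod 2) (hb : ∀ v, b v v = 0) (m : ℕ) :
    |((univ.filter fun x : Fin m → V => ∀ e : prs (Fin m), b (x e.1.1) (x e.1.2) = 0).card : ℤ) *
        2 ^ m.choose 2 - (Fintype.card V : ℤ) ^ m| * (Fintype.card V : ℤ) ≤
      2 ^ m.choose 2 * ((Fintype.card V : ℤ) ^ m * ((Rad b).card : ℤ)) := by
  have h1 : ((univ.filter fun x : Fin m → V =>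
      ∀ e : prs (Fin m), b (x e.1.1) (x e.1.2) = 0).card : ℤ) * 2 ^ m.choose 2 =
      ∑ h : prs (Fin m) → ZMod 2, ∑ x : Fin m → V, ch (EE b h x) := by
    rw [Finset.sum_comm, Finset.card_filter]
    push_cast
    rw [Finset.sum_mul]
    refine Finset.sum_congr rfl fun x _ => ?_
    unfold EE
    rw [sum_ch (fun e : prs (Fin m) => b (x e.1.1) (x e.1.2)), Fintype.card_coe, prs_card]
    split_ifs
    · rw [one_mul]
    · rw [zero_mul]
  have h2 : ∑ x : Fin m → V, ch (EE b 0 x) = (Fintype.card V : ℤ) ^ m := by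
    have h3 : ∀ x : Fin m → V, ch (EE b 0 x) = 1 := by
      intro x
      unfold EE
      simp only [Pi.zero_apply, zero_mul, Finset.sum_const_zero, ch_zero]
    rw [Finset.sum_congr rfl fun x _ => h3 x, Finset.sum_const, Finset.card_univ,
      Fintype.card_fun, Fintype.card_fin, nsmul_eq_mul, mul_one]
    push_cast
    rfl
  rw [h1, ← Finset.add_sum_erase univ _ (Finset.mem_univ (0 : prs (Fin m) → ZMod 2)), h2,
    add_sub_cancel_left]
  have h3 : |∑ h ∈ univ.erase (0 : prs (Fin m) → ZMod 2), ∑ x : Fin m → V, ch (EE b h x)| *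
      (Fintype.card V : ℤ) ≤ ∑ h ∈ univ.erase (0 : prs (Fin m) → ZMod 2),
        (Fintype.card V : ℤ) ^ m * ((Rad b).card : ℤ) := by
    refine (mul_le_mul_of_nonneg_right (Finset.abs_sum_le_sum_abs _ _)
      (Int.natCast_nonneg _)).trans ?_
    rw [Finset.sum_mul]
    exact Finset.sum_le_sum fun h hh => sum_EE b hb h (Finset.ne_of_mem_erase hh)
  refine h3.trans ?_
  rw [Finset.sum_const, nsmul_eq_mul]
  refine mul_le_mul_of_nonneg_right ?_ (by positivity)
  have h4 : (univ.erase (0 : prs (Fin m) → ZMod 2)).card ≤ 2 ^ m.choose 2 := by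
    refine (Finset.card_erase_le).trans ?_
    rw [Finset.card_univ, Fintype.card_fun, Fintype.card_coe, prs_card, ZMod.card]
  exact_mod_cast h4

/-- the orthogonal tuples that are independent modulo `K` -/
noncomputable def GG (b : V →ₗ[ZMod 2] V →ₗ[ZMod 2] ZMod 2) (m : ℕ) (K : Finset V) :
    Finset (Fin m → V) :=
  univ.filter fun x : Fin m → V => (∀ e : prs (Fin m), b (x e.1.1) (x e.1.2) = 0) ∧
    ∀ a : Fin m → ZMod 2, (∃ i, a i ≠ 0) → ∑ i, a i • x i ∉ K

theorem mem_GG {b : V →ₗ[ZMod 2] V →ₗ[ZMod 2] ZMod 2} {m : ℕ} {K : Finset V}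
    {x : Fin m → V} : x ∈ GG b m K ↔ (∀ e : prs (Fin m), b (x e.1.1) (x e.1.2) = 0) ∧
    ∀ a : Fin m → ZMod 2, (∃ i, a i ≠ 0) → ∑ i, a i • x i ∉ K := by
  unfold GG
  rw [Finset.mem_filter]
  exact ⟨fun h => h.2, fun h => ⟨Finset.mem_univ _, h⟩⟩

/-- the number of the orthogonal tuples that are independent modulo `K` -/
theorem card_good (b : V →ₗ[ZMod 2] V →ₗ[ZMod 2] ZMod 2) (hb : ∀ v, b v v = 0) (m : ℕ)
    (K : Finset V) :
    |((GG b m K).card : ℤ) *
        2 ^ m.choose 2 - (Fintype.card V : ℤ) ^ m| * (Fintype.card V : ℤ) ≤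
      2 ^ m.choose 2 * ((Fintype.card V : ℤ) ^ m * ((Rad b).card + 2 ^ m * K.card : ℤ)) := by
  obtain ⟨O, hOd⟩ : ∃ O : Finset (Fin m → V), O = univ.filter fun x : Fin m → V =>
    ∀ e : prs (Fin m), b (x e.1.1) (x e.1.2) = 0 := ⟨_, rfl⟩
  obtain ⟨G, hGd⟩ : ∃ G : Finset (Fin m → V), G = GG b m K := ⟨_, rfl⟩
  have h0 := card_orth b hb m
  rw [← hOd] at h0
  rw [← hGd]
  have hGO : G ⊆ O := by
    intro x hx
    rw [hGd, mem_GG] at hx
    rw [hOd, Finset.mem_filter]
    exact ⟨Finset.mem_univ _, hx.1⟩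
  have h1 : ((O.card : ℤ) - G.card) * (Fintype.card V : ℤ) ≤
      2 ^ m * ((Fintype.card V : ℤ) ^ m * K.card) := by
    have h2 : O.card - G.card ≤ ∑ a ∈ univ.erase (0 : Fin m → ZMod 2),
        (univ.filter fun x : Fin m → V => ∑ i, a i • x i ∈ K).card := by
      rw [← Finset.card_sdiff_of_subset hGO]
      refine (Finset.card_le_card ?_).trans Finset.card_biUnion_le
      intro x hx
      rw [Finset.mem_sdiff, hOd, hGd, Finset.mem_filter, mem_GG] at hx
      obtain ⟨hx1, hx2⟩ := hx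
      rw [Finset.mem_biUnion]
      by_contra hcon
      push Not at hcon
      refine hx2 ⟨hx1.2, fun a ha hK => ?_⟩
      refine hcon a ?_ ?_
      · rw [Finset.mem_erase]
        refine ⟨fun h3 => ?_, Finset.mem_univ _⟩
        obtain ⟨i, hi⟩ := ha
        rw [h3] at hi
        exact hi rfl
      · rw [Finset.mem_filter]
        exact ⟨Finset.mem_univ _, hK⟩
    have h3 : ∀ a ∈ univ.erase (0 : Fin m → ZMod 2),
        (univ.filter fun x : Fin m → V => ∑ i, a i • x i ∈ K).card * Fintype.card V =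
          Fintype.card V ^ m * K.card := by
      intro a ha
      obtain ⟨j0, hj0⟩ : ∃ j, a j ≠ 0 := by
        by_contra hcon
        push Not at hcon
        exact Finset.ne_of_mem_erase ha (funext hcon)
      refine card_tr (fun x => ∑ i, a i • x i) j0 (fun x v => ?_) K
      simp only [Pi.add_apply, smul_add, Finset.sum_add_distrib]
      congr 1
      rw [Finset.sum_eq_single j0 (fun j _ hj => by rw [Pi.single_eq_of_ne hj, smul_zero])
        (fun hh => absurd (Finset.mem_univ _) hh), Pi.single_eq_same, eq_one _ hj0, one_smul]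
    have h4 : (O.card - G.card) * Fintype.card V ≤ 2 ^ m * (Fintype.card V ^ m * K.card) := by
      refine (Nat.mul_le_mul_right _ h2).trans ?_
      rw [Finset.sum_mul, Finset.sum_congr rfl h3, Finset.sum_const, smul_eq_mul]
      refine Nat.mul_le_mul_right _ ?_
      refine (Finset.card_erase_le).trans ?_
      rw [Finset.card_univ, Fintype.card_fun, Fintype.card_fin, ZMod.card]
    have h5 : ((O.card - G.card : ℕ) : ℤ) = (O.card : ℤ) - G.card :=
      Nat.cast_sub (Finset.card_le_card hGO)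
    rw [← h5]
    exact_mod_cast h4
  have h2 : (0 : ℤ) ≤ (O.card : ℤ) - G.card :=
    sub_nonneg.2 (by exact_mod_cast Finset.card_le_card hGO)
  have h3 : |(G.card : ℤ) * 2 ^ m.choose 2 - (Fintype.card V : ℤ) ^ m| ≤
      |(O.card : ℤ) * 2 ^ m.choose 2 - (Fintype.card V : ℤ) ^ m| +
        ((O.card : ℤ) - G.card) * 2 ^ m.choose 2 := by
    have h4 : (G.card : ℤ) * 2 ^ m.choose 2 - (Fintype.card V : ℤ) ^ m =
        ((O.card : ℤ) * 2 ^ m.choose 2 - (Fintype.card V : ℤ) ^ m) -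
          ((O.card : ℤ) - G.card) * 2 ^ m.choose 2 := by ring
    rw [h4]
    refine (abs_sub _ _).trans ?_
    rw [abs_of_nonneg (a := ((O.card : ℤ) - G.card) * 2 ^ m.choose 2) (by positivity)]
  refine (mul_le_mul_of_nonneg_right h3 (Int.natCast_nonneg _)).trans ?_
  have h5 : (0 : ℤ) ≤ 2 ^ m.choose 2 := by positivity
  have h6 := mul_le_mul_of_nonneg_left h1 h5
  calc (|(O.card : ℤ) * 2 ^ m.choose 2 - (Fintype.card V : ℤ) ^ m| +
        ((O.card : ℤ) - G.card) * 2 ^ m.choose 2) * (Fintype.card V : ℤ)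
      = |(O.card : ℤ) * 2 ^ m.choose 2 - (Fintype.card V : ℤ) ^ m| * (Fintype.card V : ℤ) +
        2 ^ m.choose 2 * (((O.card : ℤ) - G.card) * (Fintype.card V : ℤ)) := by ring
    _ ≤ 2 ^ m.choose 2 * ((Fintype.card V : ℤ) ^ m * ((Rad b).card : ℤ)) +
        2 ^ m.choose 2 * (2 ^ m * ((Fintype.card V : ℤ) ^ m * K.card)) := add_le_add h0 h6
    _ = _ := by ring

end generic

section kernel

variable {K X : Type} [Fintype K] [AddCommGroup X] [Module (ZMod 2) X] [Fintype X]

theorem ker_iff (Ψ : X →ₗ[ZMod 2] (K → ZMod 2)) (x : X) : (∀ a, Ψ x a = 0) ↔ Ψ x = 0 :=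
  ⟨fun h => funext h, fun h a => by rw [h]; rfl⟩

theorem add_fun (Ψ : X →ₗ[ZMod 2] (K → ZMod 2)) (w : K → ZMod 2) (x y : X) :
    ∑ a, w a * Ψ (x + y) a = ∑ a, w a * Ψ x a + ∑ a, w a * Ψ y a := by
  rw [← Finset.sum_add_distrib]
  refine Finset.sum_congr rfl fun a _ => ?_
  rw [map_add, Pi.add_apply, mul_add]

/-- the size of the kernel -/
theorem card_ker (Ψ : X →ₗ[ZMod 2] (K → ZMod 2))
    (hΨ : ∀ w : K → ZMod 2, w ≠ 0 → ∃ x, ∑ a, w a * Ψ x a ≠ 0) :
    Fintype.card (LinearMap.ker Ψ) * 2 ^ Fintype.card K = Fintype.card X := by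
  have h1 : ((univ.filter fun x : X => Ψ x = 0).card : ℤ) * 2 ^ Fintype.card K =
      ∑ w : K → ZMod 2, ∑ x : X, ch (∑ a, w a * Ψ x a) := by
    rw [Finset.sum_comm, Finset.card_filter]
    push_cast
    rw [Finset.sum_mul]
    refine Finset.sum_congr rfl fun x _ => ?_
    rw [sum_ch (Ψ x)]
    by_cases h : Ψ x = 0
    · rw [if_pos h, if_pos ((ker_iff Ψ x).2 h), one_mul]
    · rw [if_neg h, if_neg (fun h' => h ((ker_iff Ψ x).1 h')), zero_mul]
  have h2 : ∀ w : K → ZMod 2, ∑ x : X, ch (∑ a, w a * Ψ x a) =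
      if w = 0 then (Fintype.card X : ℤ) else 0 := by
    intro w
    rw [sum_ch_add (fun x => ∑ a, w a * Ψ x a) (add_fun Ψ w)]
    by_cases hw : w = 0
    · rw [if_pos hw, if_pos]
      intro x
      rw [hw]
      simp
    · rw [if_neg hw, if_neg]
      intro h
      obtain ⟨x, hx⟩ := hΨ w hw
      exact hx (h x)
  rw [Finset.sum_congr rfl fun w _ => h2 w, Finset.sum_ite_eq', if_pos (Finset.mem_univ _)] at h1
  have h3 : Fintype.card (LinearMap.ker Ψ) = (univ.filter fun x : X => Ψ x = 0).card := by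
    rw [← Fintype.card_subtype]
    exact Fintype.card_congr (Equiv.refl _)
  rw [h3]
  exact_mod_cast h1

/-- the additive functions that vanish on the kernel -/
theorem dual_ker (Ψ : X →ₗ[ZMod 2] (K → ZMod 2)) (f : X → ZMod 2)
    (hf : ∀ x y, f (x + y) = f x + f y) (h0 : ∀ x, Ψ x = 0 → f x = 0) :
    ∃ w : K → ZMod 2, ∀ x, f x = ∑ a, w a * Ψ x a := by
  by_contra hcon
  push Not at hcon
  have h1 : ∑ w : K → ZMod 2, ∑ x : X, ch (f x + ∑ a, w a * Ψ x a) = 0 := by
    refine Finset.sum_eq_zero fun w _ => ?_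
    rw [sum_ch_add (fun x => f x + ∑ a, w a * Ψ x a) (fun x y => by
      rw [hf, add_fun]
      ring), if_neg]
    intro h
    obtain ⟨x, hx⟩ := hcon w
    exact hx (add_eq0.1 (h x))
  rw [Finset.sum_comm] at h1
  have h2 : ∀ x : X, ∑ w : K → ZMod 2, ch (f x + ∑ a, w a * Ψ x a) =
      if Ψ x = 0 then (2 : ℤ) ^ Fintype.card K else 0 := by
    intro x
    simp only [ch_add]
    rw [← Finset.mul_sum, sum_ch (Ψ x)]
    by_cases h : Ψ x = 0
    · rw [if_pos h, if_pos ((ker_iff Ψ x).2 h), h0 x h, ch_zero, one_mul]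
    · rw [if_neg h, if_neg (fun h' => h ((ker_iff Ψ x).1 h')), mul_zero]
  rw [Finset.sum_congr rfl fun x _ => h2 x] at h1
  have h3 := (Finset.sum_eq_zero_iff_of_nonneg (fun x _ => by
    split_ifs
    · positivity
    · exact le_rfl)).1 h1 0 (Finset.mem_univ _)
  rw [map_zero, if_pos rfl] at h3
  exact absurd h3 (by positivity)

end kernel

section blocks

variable {U J : Type} [Fintype U] [Fintype J]
  (sU tU : U → ZMod 2) (sJ tJ : J → ZMod 2) (A : U → U → ZMod 2) (B : U → J → ZMod 2)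

theorem rowU_add (c c' : U → ZMod 2) (d d' : J → ZMod 2) (u : U) :
    rowU sU A B (c + c') (d + d') u = rowU sU A B c d u + rowU sU A B c' d' u := by
  unfold rowU
  have h1 : ∑ v, A u v * ((c + c') u + (c + c') v) = ∑ v, A u v * (c u + c v) +
      ∑ v, A u v * (c' u + c' v) := by
    rw [← Finset.sum_add_distrib]
    refine Finset.sum_congr rfl fun v _ => ?_
    simp only [Pi.add_apply]
    ring
  have h2 : ∑ l, B u l * ((c + c') u + (d + d') l) = ∑ l, B u l * (c u + d l) +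
      ∑ l, B u l * (c' u + d' l) := by
    rw [← Finset.sum_add_distrib]
    refine Finset.sum_congr rfl fun v _ => ?_
    simp only [Pi.add_apply]
    ring
  rw [h1, h2, Pi.add_apply]
  ring

theorem colS_add (c c' : U → ZMod 2) (d d' : J → ZMod 2) :
    colS sU tU sJ tJ (c + c') (d + d') = colS sU tU sJ tJ c d + colS sU tU sJ tJ c' d' := by
  unfold colS
  simp only [Pi.add_apply, mul_add, Finset.sum_add_distrib]
  ring

/-- the equations of the small primes and the sum of the rows -/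
noncomputable def Psi : ((U → ZMod 2) × (J → ZMod 2)) →ₗ[ZMod 2] (Option U → ZMod 2) :=
  AddMonoidHom.toZModLinearMap 2 (AddMonoidHom.mk' (fun x a =>
    Option.elim a (colS sU tU sJ tJ x.1 x.2) (fun u => rowU sU A B x.1 x.2 u)) (fun x y => by
      funext a
      rcases a with _ | u
      · exact colS_add sU tU sJ tJ _ _ _ _
      · exact rowU_add sU A B _ _ _ _ u))

theorem Psi_none (x : (U → ZMod 2) × (J → ZMod 2)) :
    Psi sU tU sJ tJ A B x none = colS sU tU sJ tJ x.1 x.2 := rfl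

theorem Psi_some (x : (U → ZMod 2) × (J → ZMod 2)) (u : U) :
    Psi sU tU sJ tJ A B x (some u) = rowU sU A B x.1 x.2 u := rfl

/-- the form -/
noncomputable def btL : ((U → ZMod 2) × (J → ZMod 2)) →ₗ[ZMod 2]
    ((U → ZMod 2) × (J → ZMod 2)) →ₗ[ZMod 2] ZMod 2 :=
  LinearMap.mk₂ (ZMod 2) (fun x y => bt tU tJ x.1 x.2 y.1 y.2)
    (fun x x' y => by
      unfold bt
      simp only [Prod.fst_add, Prod.snd_add, Pi.add_apply, mul_add, add_mul,
        Finset.sum_add_distrib]
      ring)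
    (fun z x y => by
      unfold bt
      simp only [Prod.smul_fst, Prod.smul_snd, Pi.smul_apply, smul_eq_mul]
      have h1 : ∀ (P : Type) [Fintype P] (t g : P → ZMod 2), ∑ p, t p * (z * g p) =
          z * ∑ p, t p * g p := by
        intro P _ t g
        rw [Finset.mul_sum]
        exact Finset.sum_congr rfl fun p _ => by ring
      simp only [mul_assoc, h1]
      ring)
    (fun x y y' => by
      unfold bt
      simp only [Prod.fst_add, Prod.snd_add, Pi.add_apply, mul_add, add_mul,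
        Finset.sum_add_distrib]
      ring)
    (fun z x y => by
      unfold bt
      simp only [Prod.smul_fst, Prod.smul_snd, Pi.smul_apply, smul_eq_mul]
      simp only [mul_left_comm _ z, ← Finset.mul_sum]
      ring)

theorem btL_apply (x y : (U → ZMod 2) × (J → ZMod 2)) :
    btL tU tJ x y = bt tU tJ x.1 x.2 y.1 y.2 := rfl

theorem btL_self (x : (U → ZMod 2) × (J → ZMod 2)) : btL tU tJ x x = 0 := by
  rw [btL_apply]
  unfold bt
  simp only [sq0]
  exact add_self0 _

theorem bt_comm (x y : (U → ZMod 2) × (J → ZMod 2)) : btL tU tJ x y = btL tU tJ y x :=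
  b_symm (btL tU tJ) (btL_self tU tJ) x y

/-- the unit vector of a large prime -/
noncomputable def ek (k : J) : (U → ZMod 2) × (J → ZMod 2) := (0, Pi.single k 1)

theorem rowU_ek (k : J) (u : U) :
    rowU sU A B (ek (U := U) k).1 (ek (U := U) k).2 u = B u k := by
  unfold rowU ek
  simp [Pi.single_apply]

theorem colS_ek (k : J) :
    colS sU tU sJ tJ (ek (U := U) k).1 (ek (U := U) k).2 = sJ k + tJ k := by
  unfold colS ek
  simp [Pi.single_apply]

theorem bt_ek (k : J) (hk : tJ k = 1) (x : (U → ZMod 2) × (J → ZMod 2)) :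
    btL tU tJ (ek k) x = (∑ u, tU u * x.1 u + ∑ j, tJ j * x.2 j) + x.2 k := by
  rw [btL_apply]
  unfold bt ek
  simp [Pi.single_apply, hk]

/-- the functionals are independent -/
theorem Psi_ne (hnd : ∀ (w : U → ZMod 2) (e : ZMod 2), ((∃ u, w u ≠ 0) ∨ e ≠ 0) →
    ∃ k, e * (sJ k + tJ k) + ∑ u, w u * B u k ≠ 0) (w : Option U → ZMod 2) (hw : w ≠ 0) :
    ∃ x, ∑ a, w a * Psi sU tU sJ tJ A B x a ≠ 0 := by
  have h1 : (∃ u, w (some u) ≠ 0) ∨ w none ≠ 0 := by
    by_contra hcon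
    push Not at hcon
    apply hw
    funext a
    rcases a with _ | u
    · exact hcon.2
    · exact hcon.1 u
  obtain ⟨k, hk⟩ := hnd (fun u => w (some u)) (w none) h1
  refine ⟨ek k, ?_⟩
  rw [Fintype.sum_option, Psi_none, colS_ek]
  simp only [Psi_some, rowU_ek]
  exact hk

/-- the form on the kernel -/
noncomputable def bV : LinearMap.ker (Psi sU tU sJ tJ A B) →ₗ[ZMod 2]
    LinearMap.ker (Psi sU tU sJ tJ A B) →ₗ[ZMod 2] ZMod 2 :=
  (btL tU tJ).domRestrict₁₂ _ _

theorem bV_apply (x y : LinearMap.ker (Psi sU tU sJ tJ A B)) :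
    bV sU tU sJ tJ A B x y = bt tU tJ x.1.1 x.1.2 y.1.1 y.1.2 := rfl

/-- the radical is small -/
theorem card_Rad : (Rad (bV sU tU sJ tJ A B)).card ≤
    2 ^ (Fintype.card U + 1) * (2 * (2 ^ Fintype.card U *
      2 ^ Fintype.card {j : J // ¬ tJ j = 1})) := by
  have h1 : ∀ x ∈ Rad (bV sU tU sJ tJ A B), ∃ w : Option U → ZMod 2,
      ∀ y, btL tU tJ y x.1 = ∑ a, w a * Psi sU tU sJ tJ A B y a := by
    intro x hx
    refine dual_ker (Psi sU tU sJ tJ A B) (fun y => btL tU tJ y x.1) (fun y y' => by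
      rw [map_add, LinearMap.add_apply]) (fun y hy => ?_)
    unfold Rad at hx
    rw [Finset.mem_filter] at hx
    exact hx.2 ⟨y, hy⟩
  choose! w hw using h1
  have h2 : (Rad (bV sU tU sJ tJ A B)).card ≤ (univ : Finset ((Option U → ZMod 2) ×
      (ZMod 2 × ((U → ZMod 2) × ({j : J // ¬ tJ j = 1} → ZMod 2))))).card := by
    refine Finset.card_le_card_of_injOn (fun x => (w x,
      (∑ u, tU u * x.1.1 u + ∑ j, tJ j * x.1.2 j, (x.1.1, fun j => x.1.2 j.1)))) ?_ ?_
    · intro x _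
      exact Finset.mem_coe.2 (Finset.mem_univ _)
    · intro x hx y hy hxy
      simp only [Prod.mk.injEq] at hxy
      obtain ⟨h3, h4, h5, h6⟩ := hxy
      have h7 : x.1.2 = y.1.2 := by
        funext j
        by_cases hj : tJ j = 1
        · have h8 := hw x hx (ek j)
          have h9 := hw y hy (ek j)
          rw [bt_ek tU tJ j hj] at h8 h9
          rw [h3, ← h9, h4] at h8
          exact add_left_cancel h8
        · exact congrFun h6 ⟨j, hj⟩
      exact Subtype.ext (Prod.ext h5 h7)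
  refine h2.trans (le_of_eq ?_)
  rw [Finset.card_univ]
  simp only [Fintype.card_prod, Fintype.card_fun, ZMod.card, Fintype.card_option]

/-- few vectors are constant on the large primes -/
theorem card_K [Nonempty J] : (univ.filter fun x : LinearMap.ker (Psi sU tU sJ tJ A B) =>
    ∀ k l, x.1.2 k + x.1.2 l = 0).card ≤ 2 ^ Fintype.card U * 2 := by
  obtain ⟨k0⟩ := ‹Nonempty J›
  have h2 : (univ.filter fun x : LinearMap.ker (Psi sU tU sJ tJ A B) =>
      ∀ k l, x.1.2 k + x.1.2 l = 0).card ≤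
      (univ : Finset ((U → ZMod 2) × ZMod 2)).card := by
    refine Finset.card_le_card_of_injOn (fun x => (x.1.1, x.1.2 k0)) ?_ ?_
    · intro x _
      exact Finset.mem_coe.2 (Finset.mem_univ _)
    · intro x hx y hy hxy
      simp only [Prod.mk.injEq] at hxy
      rw [Finset.mem_coe, Finset.mem_filter] at hx hy
      refine Subtype.ext (Prod.ext hxy.1 (funext fun j => ?_))
      rw [add_eq0.1 (hx.2 j k0), add_eq0.1 (hy.2 j k0)]
      exact hxy.2
  refine h2.trans (le_of_eq ?_)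
  rw [Finset.card_univ]
  simp only [Fintype.card_prod, Fintype.card_fun, ZMod.card]

end blocks

/-- QK-LA2 -/
theorem t_LA2 : S_LA2 := by
  intro m δ hδ
  obtain ⟨V0, hV0⟩ : ∃ V0 : ℕ, (2 : ℝ) ^ m.choose 2 * (8 + 4 * 2 ^ m) / δ < 2 ^ V0 :=
    pow_unbounded_of_one_lt _ (by norm_num)
  refine ⟨V0 + 1, ?_⟩
  intro U J _ _ sU tU sJ tJ A B hcard hT hA hnd
  obtain ⟨u, hu⟩ : ∃ u, u = Fintype.card U := ⟨_, rfl⟩
  obtain ⟨n, hn⟩ : ∃ n, n = Fintype.card J := ⟨_, rfl⟩
  obtain ⟨τ, hτ⟩ : ∃ τ, τ = (univ.filter fun j => tJ j = 1).card := ⟨_, rfl⟩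
  obtain ⟨ν, hν⟩ : ∃ ν, ν = Fintype.card {j : J // ¬ tJ j = 1} := ⟨_, rfl⟩
  have hn1 : τ + ν = n := by
    rw [hτ, hν, hn, Fintype.card_subtype, Finset.card_filter_add_card_filter_not]
    exact Finset.card_univ
  rw [← hu, ← hτ] at hcard
  have hne : Nonempty J := Fintype.card_pos_iff.1 (by omega)
  obtain ⟨Q, hQ⟩ : ∃ Q, Q = Fintype.card (LinearMap.ker (Psi sU tU sJ tJ A B)) := ⟨_, rfl⟩
  obtain ⟨R, hR⟩ : ∃ R, R = (Rad (bV sU tU sJ tJ A B)).card := ⟨_, rfl⟩
  obtain ⟨K, hK⟩ : ∃ K : Finset (LinearMap.ker (Psi sU tU sJ tJ A B)), K =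
    univ.filter fun x : LinearMap.ker (Psi sU tU sJ tJ A B) =>
      ∀ k l, x.1.2 k + x.1.2 l = 0 := ⟨_, rfl⟩
  have hQ1 : Q = 2 ^ (n - 1) := by
    have h1 := card_ker (Psi sU tU sJ tJ A B) (Psi_ne sU tU sJ tJ A B hnd)
    rw [← hQ] at h1
    simp only [Fintype.card_prod, Fintype.card_fun, ZMod.card, Fintype.card_option] at h1
    rw [← hu, ← hn] at h1
    have h2 : 2 ^ u * 2 ^ n = 2 ^ (n - 1) * 2 ^ (u + 1) := by
      rw [← pow_add, ← pow_add]
      congr 1
      omega
    rw [h2] at h1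
    exact Nat.eq_of_mul_eq_mul_right (by positivity) h1
  have hR1 : R * 2 ^ V0 ≤ 8 * Q := by
    have h1 := card_Rad sU tU sJ tJ A B
    rw [← hR, ← hu, ← hν] at h1
    have h2 : 2 ^ (u + 1) * (2 * (2 ^ u * 2 ^ ν)) * 2 ^ V0 ≤ 8 * Q := by
      have h3 : 2 ^ (u + 1) * (2 * (2 ^ u * 2 ^ ν)) * 2 ^ V0 = 2 ^ (2 * u + 2 + ν + V0) := by
        ring
      have h4 : 8 * Q = 2 ^ (n + 2) := by
        rw [hQ1]
        have h5 : n + 2 = 3 + (n - 1) := by omega
        rw [h5, pow_add]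
        norm_num
      rw [h3, h4]
      exact Nat.pow_le_pow_right (by norm_num) (by omega)
    exact (Nat.mul_le_mul_right _ h1).trans h2
  have hK1 : K.card * 2 ^ V0 ≤ 4 * Q := by
    have h1 := card_K sU tU sJ tJ A B
    rw [← hK, ← hu] at h1
    have h2 : 2 ^ u * 2 * 2 ^ V0 ≤ 4 * Q := by
      have h3 : 2 ^ u * 2 * 2 ^ V0 = 2 ^ (u + 1 + V0) := by
        ring
      have h4 : 4 * Q = 2 ^ (n + 1) := by
        rw [hQ1]
        have h5 : n + 1 = 2 + (n - 1) := by omega
        rw [h5, pow_add]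
        norm_num
      rw [h3, h4]
      exact Nat.pow_le_pow_right (by norm_num) (by omega)
    exact (Nat.mul_le_mul_right _ h1).trans h2
  obtain ⟨N, hN⟩ : ∃ N, N = (GG (bV sU tU sJ tJ A B) m K).card := ⟨_, rfl⟩
  have hb0 : ∀ v, bV sU tU sJ tJ A B v v = 0 := fun v => btL_self tU tJ v.1
  have hmain := card_good (bV sU tU sJ tJ A B) hb0 m K
  rw [← hN, ← hQ, ← hR] at hmain
  -- the count of the tuples
  have hNe : (univ.filter fun x : (Fin m → U → ZMod 2) × (Fin m → J → ZMod 2) =>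
      IndJ x.2 ∧ OKt sU tU sJ tJ A B x.1 x.2).card = N := by
    rw [hN]
    symm
    refine Finset.card_bij (fun x _ => (fun i => (x i).1.1, fun i => (x i).1.2)) ?_ ?_ ?_
    · intro x hx
      rw [mem_GG] at hx
      obtain ⟨h1, h2⟩ := hx
      rw [Finset.mem_filter]
      refine ⟨Finset.mem_univ _, fun a ha => ?_, fun i v => ?_, fun i => ?_, fun i j => ?_⟩
      · have h3 := h2 a ha
        rw [hK, Finset.mem_filter] at h3
        by_contra hcon
        push Not at hcon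
        refine h3 ⟨Finset.mem_univ _, fun k l => ?_⟩
        have h4 : ∀ k, (∑ i, a i • x i).1.2 k = ∑ i, a i * (x i).1.2 k := by
          intro k
          rw [Submodule.coe_sum, Prod.snd_sum, Finset.sum_apply]
          rfl
        rw [h4, h4, ← Finset.sum_add_distrib, ← hcon k l]
        exact Finset.sum_congr rfl fun i _ => (mul_add _ _ _).symm
      · have h3 := congrFun (LinearMap.mem_ker.1 (x i).2) (some v)
        rw [Psi_some] at h3
        exact h3
      · have h3 := congrFun (LinearMap.mem_ker.1 (x i).2) none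
        rw [Psi_none] at h3
        exact h3
      · rcases lt_trichotomy i j with h | h | h
        · exact h1 ⟨(i, j), mem_prs.2 h⟩
        · subst h
          exact btL_self tU tJ (x i).1
        · have h3 := h1 ⟨(j, i), mem_prs.2 h⟩
          have h4 := bt_comm tU tJ (x i).1 (x j).1
          exact h4.trans h3
    · intro x _ y _ hxy
      funext i
      refine Subtype.ext (Prod.ext ?_ ?_)
      · exact congrFun (congrArg Prod.fst hxy) i
      · exact congrFun (congrArg Prod.snd hxy) i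
    · intro y hy
      rw [Finset.mem_filter] at hy
      obtain ⟨-, h1, h2, h3, h4⟩ := hy
      have h5 : ∀ i, ((y.1 i, y.2 i) : (U → ZMod 2) × (J → ZMod 2)) ∈
          LinearMap.ker (Psi sU tU sJ tJ A B) := by
        intro i
        rw [LinearMap.mem_ker]
        funext a
        rcases a with _ | v
        · rw [Psi_none]
          exact h3 i
        · rw [Psi_some]
          exact h2 i v
      refine ⟨fun i => ⟨(y.1 i, y.2 i), h5 i⟩, ?_, rfl⟩
      rw [mem_GG]
      refine ⟨fun e => h4 _ _, fun a ha h6 => ?_⟩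
      rw [hK, Finset.mem_filter] at h6
      obtain ⟨k, l, hkl⟩ := h1 a ha
      apply hkl
      have h7 : ∀ k, (∑ i, a i • (⟨(y.1 i, y.2 i), h5 i⟩ :
          LinearMap.ker (Psi sU tU sJ tJ A B))).1.2 k = ∑ i, a i * y.2 i k := by
        intro k
        rw [Submodule.coe_sum, Prod.snd_sum, Finset.sum_apply]
        rfl
      have h8 := h6.2 k l
      rw [h7, h7, ← Finset.sum_add_distrib] at h8
      rw [← h8]
      exact Finset.sum_congr rfl fun i _ => mul_add _ _ _
  rw [hNe, ← hn]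
  -- the estimate
  have hQ0 : 0 < Q := by
    rw [hQ1]
    positivity
  have h1 : |(N : ℤ) * 2 ^ m.choose 2 - (Q : ℤ) ^ m| * 2 ^ V0 ≤
      2 ^ m.choose 2 * (Q : ℤ) ^ m * (8 + 4 * 2 ^ m) := by
    have h2 : (R : ℤ) * 2 ^ V0 ≤ 8 * Q := by exact_mod_cast hR1
    have h3 : (K.card : ℤ) * 2 ^ V0 ≤ 4 * Q := by exact_mod_cast hK1
    have h4 : |(N : ℤ) * 2 ^ m.choose 2 - (Q : ℤ) ^ m| * 2 ^ V0 * Q ≤
        2 ^ m.choose 2 * (Q : ℤ) ^ m * (8 + 4 * 2 ^ m) * Q := by
      calc |(N : ℤ) * 2 ^ m.choose 2 - (Q : ℤ) ^ m| * 2 ^ V0 * Q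
          = (|(N : ℤ) * 2 ^ m.choose 2 - (Q : ℤ) ^ m| * Q) * 2 ^ V0 := by ring
        _ ≤ (2 ^ m.choose 2 * ((Q : ℤ) ^ m * (R + 2 ^ m * K.card : ℤ))) * 2 ^ V0 :=
          mul_le_mul_of_nonneg_right hmain (by positivity)
        _ = 2 ^ m.choose 2 * (Q : ℤ) ^ m * (R * 2 ^ V0 + 2 ^ m * (K.card * 2 ^ V0)) := by ring
        _ ≤ 2 ^ m.choose 2 * (Q : ℤ) ^ m * (8 * Q + 2 ^ m * (4 * Q)) := by
          refine mul_le_mul_of_nonneg_left ?_ (by positivity)
          exact add_le_add h2 (mul_le_mul_of_nonneg_left h3 (by positivity))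
        _ = _ := by ring
    exact le_of_mul_le_mul_right h4 (by exact_mod_cast hQ0)
  have h2 : |(N : ℝ) * 2 ^ m.choose 2 - (Q : ℝ) ^ m| * 2 ^ V0 ≤
      2 ^ m.choose 2 * (Q : ℝ) ^ m * (8 + 4 * 2 ^ m) := by exact_mod_cast h1
  have hQr : (0 : ℝ) < (Q : ℝ) ^ m := by
    have : (0 : ℝ) < Q := by exact_mod_cast hQ0
    positivity
  have h3 : (2 : ℝ) ^ (m * (n - 1)) = (Q : ℝ) ^ m := by
    rw [hQ1]
    push_cast
    rw [← pow_mul, mul_comm]
  rw [h3]
  have h4 : (N : ℝ) * 2 ^ m.choose 2 / (Q : ℝ) ^ m - 1 =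
      ((N : ℝ) * 2 ^ m.choose 2 - (Q : ℝ) ^ m) / (Q : ℝ) ^ m := by
    field_simp
  rw [h4, abs_div, abs_of_pos hQr, div_le_iff₀ hQr]
  rw [div_lt_iff₀ hδ] at hV0
  have h5 : (0 : ℝ) < 2 ^ V0 := by positivity
  have h6 : |(N : ℝ) * 2 ^ m.choose 2 - (Q : ℝ) ^ m| * 2 ^ V0 ≤ δ * (Q : ℝ) ^ m * 2 ^ V0 := by
    refine h2.trans ?_
    have h7 := mul_le_mul_of_nonneg_right hV0.le hQr.le
    calc (2 : ℝ) ^ m.choose 2 * (Q : ℝ) ^ m * (8 + 4 * 2 ^ m)
        = 2 ^ m.choose 2 * (8 + 4 * 2 ^ m) * (Q : ℝ) ^ m := by ring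
      _ ≤ 2 ^ V0 * δ * (Q : ℝ) ^ m := h7
      _ = _ := by ring
  exact le_of_mul_le_mul_right h6 h5

end Pool.Agent.N856.JA.QK.LA2
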