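import Pool.Agent.N856.JA.JLA1
import Pool.Agent.N856.JA.JLA2
import Pool.Agent.N856.JA.JLA3
import Pool.Agent.N856.JA.JLA4
import Pool.Agent.N856.JA.MOMJ

/-! # The abstract joint law of project QJ (helper426) -/

set_option autoImplicit false

namespace Pool.Agent.N856.JA.QJ

theorem t_LAJ : S_LAJ := LA4.t_LA4J MOMJ.t_MOMJ LA1.t_LA1J LA2.t_LA2J LA3.t_LA3J

end Pool.Agent.N856.JA.QJ
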