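import Pool.Agent.N856.JA.QJ
import Pool.Agent.N856.JA.KLA1

/-!
# QJ-LA1: the number of the symmetric completions that satisfy given linear equations
-/

set_option autoImplicit false
set_option linter.unusedVariables false
set_option linter.unusedSectionVars false

open scoped Classical

namespace Pool.Agent.N856.JA.QJ.LA1

open Finset Pool.Agent.N856.JA.QK Pool.Agent.N856.JA.QK.LA0 Pool.Agent.N856.JA.QK.LA1

section rows

variable {J A : Type} [Fintype J] [LinearOrder J] (tJ : J → ZMod 2) (f d : A → J → ZMod 2)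

/-- the left side of the equation -/
noncomputable def rw1 (α : prs J → ZMod 2) (a : A) (k : J) : ZMod 2 :=
  f a k + ∑ l, ext tJ α k l * (d a k + d a l)

/-- the condition on one vector -/
noncomputable def cc1 (a : A) : ZMod 2 := ∑ k, f a k + ∑ e ∈ prs J, tJ e.1 * tJ e.2 * (d a e.1 + d a e.2)

/-- the condition on two vectors -/
noncomputable def cc2 (a b : A) : ZMod 2 := ∑ k, (f a k * d b k + f b k * d a k) +
  ∑ k, ∑ l, (if k = l then 0 else tJ k * tJ l * (d a k * d b l))

theorem c2_symm (a b : A) : cc2 tJ f d a b = cc2 tJ f d b a := by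
  unfold cc2
  congr 1
  · exact Finset.sum_congr rfl fun k _ => add_comm _ _
  · rw [Finset.sum_comm]
    refine Finset.sum_congr rfl fun k _ => Finset.sum_congr rfl fun l _ => ?_
    by_cases h : k = l
    · rw [if_pos h, if_pos h.symm]
    · rw [if_neg h, if_neg (fun h' => h h'.symm)]
      ring

/-- the dependence of the rows on the completion -/
theorem rw1_aff (α : prs J → ZMod 2) (a : A) (k : J) :
    rw1 tJ f d α a k = rw1 tJ f d 0 a k +
      ∑ l, (aa α (l, k) + aa α (k, l)) * (d a k + d a l) := by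
  unfold rw1
  rw [add_assoc, ← Finset.sum_add_distrib]
  congr 1
  refine Finset.sum_congr rfl fun l _ => ?_
  rw [ext_eq, ext_eq]
  have h1 : ∀ e : J × J, aa (0 : prs J → ZMod 2) e = 0 := by
    intro e
    unfold aa
    split_ifs <;> rfl
  rw [h1, h1]
  ring

/-- the sum of the rows -/
theorem sum_rw1 (a : A) : ∑ k, rw1 tJ f d 0 a k = cc1 tJ f d a := by
  unfold rw1 cc1
  rw [Finset.sum_add_distrib]
  congr 1
  rw [sum_pairs]
  have h2 : ∑ k : J, ext tJ 0 k k * (d a k + d a k) = 0 :=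
    Finset.sum_eq_zero fun k _ => by rw [add_self0 (d a k), mul_zero]
  rw [h2, add_zero]
  refine Finset.sum_congr rfl fun e he => ?_
  have h3 : e.1 ≠ e.2 := (mem_prs.1 he).ne
  rw [← ext_add tJ 0 e.1 e.2 h3]
  ring

/-- the polarization -/
theorem pol_rw1 (a b : A) : ∑ k, d b k * rw1 tJ f d 0 a k + ∑ k, d a k * rw1 tJ f d 0 b k =
    cc2 tJ f d a b := by
  unfold rw1 cc2
  rw [← Finset.sum_add_distrib]
  have h1 : ∀ k, d b k * (f a k + ∑ l, ext tJ 0 k l * (d a k + d a l)) +
      d a k * (f b k + ∑ l, ext tJ 0 k l * (d b k + d b l)) =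
      (f a k * d b k + f b k * d a k) +
        ∑ l, (ext tJ 0 k l * (d b k * d a l) + ext tJ 0 k l * (d a k * d b l)) := by
    intro k
    rw [mul_add, mul_add, Finset.mul_sum, Finset.mul_sum]
    have h2 : ∑ l, (ext tJ 0 k l * (d b k * d a l) + ext tJ 0 k l * (d a k * d b l)) =
        ∑ l, (d b k * (ext tJ 0 k l * (d a k + d a l)) +
          d a k * (ext tJ 0 k l * (d b k + d b l))) := by
      refine Finset.sum_congr rfl fun l _ => ?_
      linear_combination (-(ext tJ 0 k l * d a k * d b k)) * two0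
    rw [h2, Finset.sum_add_distrib]
    ring
  rw [Finset.sum_congr rfl fun k _ => h1 k, Finset.sum_add_distrib]
  congr 1
  have h3 : ∑ k, ∑ l, ext tJ 0 k l * (d b k * d a l) =
      ∑ k, ∑ l, ext tJ 0 l k * (d a k * d b l) := by
    rw [Finset.sum_comm]
    refine Finset.sum_congr rfl fun p _ => Finset.sum_congr rfl fun q _ => ?_
    ring
  simp only [Finset.sum_add_distrib]
  rw [h3, ← Finset.sum_add_distrib]
  refine Finset.sum_congr rfl fun k _ => ?_
  rw [← Finset.sum_add_distrib]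
  refine Finset.sum_congr rfl fun l _ => ?_
  by_cases h : k = l
  · subst h
    rw [if_pos rfl, add_self0]
  · rw [if_neg h, ← ext_add tJ 0 k l h]
    ring

end rows

/-- the count for the tuples indexed by `Fin m` -/
theorem core {J : Type} [Fintype J] [LinearOrder J] (tJ : J → ZMod 2) {m : ℕ}
    (f d : Fin m → J → ZMod 2) (hd : IndJ d) :
    (univ.filter fun α : prs J → ZMod 2 => ∀ a k, rw1 tJ f d α a k = 0).card *
      2 ^ (m * (Fintype.card J - 1)) =
    if (∀ a, cc1 tJ f d a = 0) ∧ (∀ a b, a ≠ b → cc2 tJ f d a b = 0)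
      then 2 ^ ((prs J).card + m.choose 2) else 0 := by
  obtain ⟨K, hKd⟩ : ∃ K : (Fin m × J → ZMod 2) → ZMod 2, K = fun y =>
    ∑ p, y p * rw1 tJ f d 0 p.1 p.2 := ⟨_, rfl⟩
  -- the exponent
  have hexp : ∀ (y : Fin m × J → ZMod 2) (α : prs J → ZMod 2),
      ∑ p, y p * rw1 tJ f d α p.1 p.2 = K y + ∑ e : prs J, α e * cf d y e.1 := by
    intro y α
    have h0 : ∀ p : Fin m × J, y p * rw1 tJ f d α p.1 p.2 =
        y p * rw1 tJ f d 0 p.1 p.2 +
          y p * ∑ l, (aa α (l, p.2) + aa α (p.2, l)) * (d p.1 p.2 + d p.1 l) := by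
      intro p
      rw [rw1_aff tJ f d α, mul_add]
    rw [sum_aa, hKd, Finset.sum_congr rfl fun p _ => h0 p, Finset.sum_add_distrib]
    congr 1
    rw [← Finset.univ_product_univ, Finset.sum_product]
    have h1 : ∀ i : Fin m, ∑ k : J, (y (i, k) * ∑ l, (aa α (l, k) + aa α (k, l)) *
        (d i k + d i l)) = ∑ e ∈ prs J, aa α e * ((y (i, e.1) + y (i, e.2)) *
          (d i e.1 + d i e.2)) := by
      intro i
      simp only [Finset.mul_sum]
      rw [sum_pairs (fun k l => y (i, k) * ((aa α (l, k) + aa α (k, l)) * (d i k + d i l)))]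
      have h2 : ∑ k : J, y (i, k) * ((aa α (k, k) + aa α (k, k)) * (d i k + d i k)) = 0 :=
        Finset.sum_eq_zero fun k _ => by rw [add_self0 (d i k), mul_zero, mul_zero]
      rw [h2, add_zero]
      refine Finset.sum_congr rfl fun e he => ?_
      have h3 : e.1 < e.2 := mem_prs.1 he
      rw [aa_neg α (e := (e.2, e.1)) (not_lt.2 h3.le)]
      have h4 : aa α (e.1, e.2) = aa α e := rfl
      rw [h4]
      ring
    have h6 : ∑ e ∈ prs J, aa α e * cf d y e = ∑ i, ∑ e ∈ prs J,
        aa α e * ((y (i, e.1) + y (i, e.2)) * (d i e.1 + d i e.2)) := by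
      rw [Finset.sum_comm]
      refine Finset.sum_congr rfl fun e _ => ?_
      unfold cf
      rw [Finset.mul_sum]
    rw [h6]
    refine Finset.sum_congr rfl fun i _ => ?_
    exact h1 i
  -- the values at the solutions of the transposed system
  have hKy : ∀ x : (prs (Fin m) → ZMod 2) × (Fin m → ZMod 2), K (yy d x) =
      ∑ e : prs (Fin m), x.1 e * cc2 tJ f d e.1.1 e.1.2 + ∑ i, x.2 i * cc1 tJ f d i := by
    intro x
    rw [sum_aa x.1 fun e => cc2 tJ f d e.1 e.2, hKd]
    beta_reduce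
    rw [← Finset.univ_product_univ, Finset.sum_product]
    have h1 : ∀ i : Fin m, ∑ k : J, yy d x (i, k) * rw1 tJ f d 0 i k =
        ∑ j, gg x.1 i j * ∑ k, d j k * rw1 tJ f d 0 i k + x.2 i * cc1 tJ f d i := by
      intro i
      rw [← sum_rw1 tJ f d i]
      unfold yy
      simp only [add_mul, Finset.sum_add_distrib, Finset.mul_sum, Finset.sum_mul]
      congr 1
      rw [Finset.sum_comm]
      refine Finset.sum_congr rfl fun j _ => Finset.sum_congr rfl fun k _ => ?_
      ring
    rw [Finset.sum_congr rfl fun i _ => h1 i, Finset.sum_add_distrib]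
    congr 1
    rw [sum_pairs]
    simp only [gg_self, zero_mul, Finset.sum_const_zero, add_zero]
    refine Finset.sum_congr rfl fun e he => ?_
    rw [gg_symm x.1 e.2 e.1, ← mul_add]
    have h2 : gg x.1 e.1 e.2 = aa x.1 e := by
      have h3 := gg_pos x.1 ⟨e, he⟩
      have h4 := aa_pos x.1 ⟨e, he⟩
      rw [h4]
      exact h3
    rw [h2, ← pol_rw1 tJ f d e.1 e.2]
  -- the counting
  have hcount : ((univ.filter fun α : prs J → ZMod 2 =>
      ∀ a k, rw1 tJ f d α a k = 0).card : ℤ) * 2 ^ Fintype.card (Fin m × J) =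
      2 ^ Fintype.card (prs J) * ∑ y ∈ univ.filter (fun y => ∀ e : prs J, cf d y e.1 = 0),
        ch (K y) := by
    rw [Finset.card_filter]
    push_cast
    rw [Finset.sum_mul, Finset.mul_sum]
    have h1 : ∀ α : prs J → ZMod 2,
        (if ∀ a k, rw1 tJ f d α a k = 0 then (1 : ℤ) else 0) *
          2 ^ Fintype.card (Fin m × J) = ∑ y : Fin m × J → ZMod 2,
            ch (∑ p, y p * rw1 tJ f d α p.1 p.2) := by
      intro α
      rw [sum_ch]
      have h2 : (∀ a k, rw1 tJ f d α a k = 0) ↔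
          ∀ p : Fin m × J, rw1 tJ f d α p.1 p.2 = 0 :=
        ⟨fun h p => h p.1 p.2, fun h i k => h (i, k)⟩
      by_cases h3 : ∀ p : Fin m × J, rw1 tJ f d α p.1 p.2 = 0
      · rw [if_pos h3, if_pos (h2.2 h3), one_mul]
      · rw [if_neg h3, if_neg (fun h => h3 (h2.1 h)), zero_mul]
    rw [Finset.sum_congr rfl fun α _ => h1 α, Finset.sum_comm]
    have h2 : ∀ y : Fin m × J → ZMod 2, ∑ α : prs J → ZMod 2,
        ch (∑ p, y p * rw1 tJ f d α p.1 p.2) =
        if ∀ e : prs J, cf d y e.1 = 0 then 2 ^ Fintype.card (prs J) * ch (K y) else 0 := by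
      intro y
      simp only [hexp y, ch_add]
      rw [← Finset.mul_sum, sum_ch]
      split_ifs
      · ring
      · ring
    rw [Finset.sum_congr rfl fun y _ => h2 y, Finset.sum_filter]
  have hbij : ∑ y ∈ univ.filter (fun y => ∀ e : prs J, cf d y e.1 = 0), ch (K y) =
      ∑ x : (prs (Fin m) → ZMod 2) × (Fin m → ZMod 2), ch (K (yy d x)) := by
    symm
    refine Finset.sum_bij (fun x _ => yy d x) ?_ ?_ ?_ ?_
    · intro x _
      rw [Finset.mem_filter]
      exact ⟨Finset.mem_univ _, fun e => cf_yy d x e.1⟩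
    · intro x _ x' _ h
      exact yy_inj d hd h
    · intro y hy
      rw [Finset.mem_filter] at hy
      obtain ⟨x, hx⟩ := yy_surj d hd y fun e he => hy.2 ⟨e, he⟩
      exact ⟨x, Finset.mem_univ _, hx⟩
    · intro x _
      rfl
  have hval : ∑ x : (prs (Fin m) → ZMod 2) × (Fin m → ZMod 2), ch (K (yy d x)) =
      if (∀ a, cc1 tJ f d a = 0) ∧ (∀ a b, a ≠ b → cc2 tJ f d a b = 0)
        then 2 ^ (m.choose 2 + m) else 0 := by
    simp only [hKy, ch_add]
    rw [← Finset.univ_product_univ, Finset.sum_product]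
    simp only [← Finset.mul_sum]
    rw [← Finset.sum_mul, sum_ch (fun i => cc1 tJ f d i),
      sum_ch (fun e : prs (Fin m) => cc2 tJ f d e.1.1 e.1.2)]
    have h1 : ((∀ a, cc1 tJ f d a = 0) ∧ (∀ a b, a ≠ b → cc2 tJ f d a b = 0)) ↔
        (∀ e : prs (Fin m), cc2 tJ f d e.1.1 e.1.2 = 0) ∧ ∀ i, cc1 tJ f d i = 0 := by
      constructor
      · rintro ⟨h2, h3⟩
        exact ⟨fun e => h3 _ _ (mem_prs.1 e.2).ne, h2⟩
      · rintro ⟨h2, h3⟩
        refine ⟨h3, fun i j hij => ?_⟩
        rcases lt_trichotomy i j with h | h | h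
        · exact h2 ⟨(i, j), mem_prs.2 h⟩
        · exact absurd h hij
        · rw [c2_symm]
          exact h2 ⟨(j, i), mem_prs.2 h⟩
    have h2 : Fintype.card (prs (Fin m)) = m.choose 2 := by
      rw [Fintype.card_coe, prs_card]
    rw [h2, Fintype.card_fin]
    by_cases h3 : ∀ e : prs (Fin m), cc2 tJ f d e.1.1 e.1.2 = 0
    · by_cases h4 : ∀ i, cc1 tJ f d i = 0
      · rw [if_pos h3, if_pos h4, if_pos (h1.2 ⟨h3, h4⟩), pow_add]
      · rw [if_pos h3, if_neg h4, if_neg (fun h => h4 (h1.1 h).2), mul_zero]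
    · rw [if_neg h3, if_neg (fun h => h3 (h1.1 h).1), zero_mul]
  rw [hbij, hval] at hcount
  -- the exponents
  have hcard : Fintype.card (Fin m × J) = m * (Fintype.card J - 1) + m := by
    rw [Fintype.card_prod, Fintype.card_fin]
    rcases Nat.eq_zero_or_pos m with h | h
    · subst h
      simp
    · obtain ⟨k, -, -⟩ := hd (fun _ => 1) ⟨⟨0, h⟩, by decide⟩
      have h1 : 0 < Fintype.card J := Fintype.card_pos_iff.2 ⟨k⟩
      obtain ⟨n, hn⟩ := Nat.exists_eq_succ_of_ne_zero h1.ne'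
      rw [hn, Nat.succ_sub_one, Nat.mul_succ]
  rw [hcard, Fintype.card_coe, pow_add, ← mul_assoc] at hcount
  have h2m : (2 : ℤ) ^ m ≠ 0 := pow_ne_zero _ (by norm_num)
  by_cases hok : (∀ a, cc1 tJ f d a = 0) ∧ (∀ a b, a ≠ b → cc2 tJ f d a b = 0)
  · rw [if_pos hok] at hcount ⊢
    have h1 : (((univ.filter fun α : prs J → ZMod 2 =>
        ∀ a k, rw1 tJ f d α a k = 0).card : ℤ) *
        2 ^ (m * (Fintype.card J - 1))) * 2 ^ m = 2 ^ ((prs J).card + m.choose 2) * 2 ^ m := by
      rw [hcount, ← pow_add, ← pow_add]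
      congr 1
      ring
    have h2 := mul_right_cancel₀ h2m h1
    exact_mod_cast h2
  · rw [if_neg hok] at hcount ⊢
    rw [mul_zero] at hcount
    have h2 := (mul_eq_zero.1 hcount).resolve_right h2m
    exact_mod_cast h2

/-- QJ-LA1 -/
theorem t_LA1J : S_LA1J := by
  intro J T _ _ _ tJ f d hd
  obtain ⟨e⟩ : Nonempty (T ≃ Fin (Fintype.card T)) := ⟨Fintype.equivFin T⟩
  have hd' : IndJ (fun i : Fin (Fintype.card T) => d (e.symm i)) := by
    intro a ha
    obtain ⟨i, hi⟩ := ha
    obtain ⟨k, l, hkl⟩ := hd (fun t => a (e t)) ⟨e.symm i, by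
      rw [Equiv.apply_symm_apply]
      exact hi⟩
    refine ⟨k, l, ?_⟩
    rw [← Equiv.sum_comp e.symm] at hkl
    simpa only [Equiv.apply_symm_apply] using hkl
  have h := core tJ (fun i => f (e.symm i)) (fun i => d (e.symm i)) hd'
  have h1 : ∀ α : prs J → ZMod 2,
      (∀ (a : Fin (Fintype.card T)) (k : J),
        rw1 tJ (fun i => f (e.symm i)) (fun i => d (e.symm i)) α a k = 0) ↔
      ∀ a k, f a k + ∑ l, ext tJ α k l * (d a k + d a l) = 0 := by
    intro α
    constructor
    · intro h2 a k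
      have h3 := h2 (e a) k
      unfold rw1 at h3
      simpa only [Equiv.symm_apply_apply] using h3
    · intro h2 a k
      exact h2 (e.symm a) k
  have h2 : ((∀ a : Fin (Fintype.card T),
        cc1 tJ (fun i => f (e.symm i)) (fun i => d (e.symm i)) a = 0) ∧
      (∀ a b : Fin (Fintype.card T), a ≠ b →
        cc2 tJ (fun i => f (e.symm i)) (fun i => d (e.symm i)) a b = 0)) ↔
      ((∀ a, ∑ k, f a k + ∑ e ∈ prs J, tJ e.1 * tJ e.2 * (d a e.1 + d a e.2) = 0) ∧
        (∀ a b, a ≠ b → ∑ k, (f a k * d b k + f b k * d a k) +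
          ∑ k, ∑ l, (if k = l then 0 else tJ k * tJ l * (d a k * d b l)) = 0)) := by
    constructor
    · rintro ⟨h3, h4⟩
      refine ⟨fun a => ?_, fun a b hab => ?_⟩
      · have h5 := h3 (e a)
        unfold cc1 at h5
        simpa only [Equiv.symm_apply_apply] using h5
      · have h5 := h4 (e a) (e b) (fun h6 => hab (e.injective h6))
        unfold cc2 at h5
        simpa only [Equiv.symm_apply_apply] using h5
    · rintro ⟨h3, h4⟩
      refine ⟨fun a => h3 (e.symm a), fun a b hab => ?_⟩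
      exact h4 (e.symm a) (e.symm b) (fun h6 => hab (e.symm.injective h6))
  simp only [h1] at h
  rw [h]
  by_cases h3 : (∀ a, ∑ k, f a k + ∑ e ∈ prs J, tJ e.1 * tJ e.2 * (d a e.1 + d a e.2) = 0) ∧
        (∀ a b, a ≠ b → ∑ k, (f a k * d b k + f b k * d a k) +
          ∑ k, ∑ l, (if k = l then 0 else tJ k * tJ l * (d a k * d b l)) = 0)
  · rw [if_pos h3, if_pos (h2.2 h3)]
  · rw [if_neg h3, if_neg (fun h4 => h3 (h2.1 h4))]

end Pool.Agent.N856.JA.QJ.LA1
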